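import Mathlib

/-!
# Partial sums of `∑_j C(n,j) C(n-j,j) C(n+j,j)` modulo `p²` for `p ≡ 2 (mod 3)`

The sum over `n < p` equals `∑_j C(3j,j) C(2j,j) C(p+j,3j+1)`, and the term of `j` is
`p C(2j,j) / (3j+1)` modulo `p²`. With `n = (p-1)/2` and `m = (p+1)/3` this is `p/3` times the value
at `1` of the primitive `G` of `x^(m-1) (1-4x)^n` over the field with `p` elements. If `K` is the
primitive of `(y(1-y))^(m-1)`, then comparing derivatives gives the polynomial identities
`G(y(1-y)) = K(y) (1 - 2 y^p) + K(1) y^p` and `(1-y)^p K(1/(1-y)) + K(y) = K(1)`; for a primitive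
sixth root of unity `y` they give `G(1) = K(1) = 6 / C(2m,m)`.
-/

set_option autoImplicit false

open Finset Polynomial

namespace Pool.Agent.Results.MP_ec79a8_nt.SunTwoModThree

/-- The sequence `a(n)`. -/
def a (n : ℕ) : ℕ := ∑ j ∈ range (n + 1), n.choose j * (n - j).choose j * (n + j).choose j

section Field

variable {F : Type*} [Field F] {p : ℕ} [hp : Fact p.Prime] [CharP F p]

lemma cast_ne {k : ℕ} (h0 : 0 < k) (h1 : k < p) : (k : F) ≠ 0 := by
  rw [Ne, CharP.cast_eq_zero_iff F p]
  exact Nat.not_dvd_of_pos_of_lt h0 h1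

/-- A polynomial of degree less than `p` with derivative zero is constant. -/
lemma eq_const {P : F[X]} (hP : derivative P = 0) (hdeg : P.natDegree < p) :
    P = C (P.eval 0) := by
  ext k
  rw [coeff_C]
  split_ifs with h
  · rw [h, ← coeff_zero_eq_eval_zero]
  · obtain ⟨k, rfl⟩ := Nat.exists_eq_succ_of_ne_zero h
    by_cases hk : k + 1 < p
    · have h1 := congrArg (fun Q : F[X] => Q.coeff k) hP
      simp only [coeff_derivative, coeff_zero] at h1
      have h2 : ((k + 1 : ℕ) : F) ≠ 0 := cast_ne (p := p) (Nat.succ_pos k) hk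
      push_cast at h2
      exact (mul_eq_zero.1 h1).resolve_right h2
    · exact coeff_eq_zero_of_natDegree_lt (by omega)

/-- A polynomial of degree less than `2 p` with derivative zero is a combination of `1`, `X ^ p`. -/
lemma eq_two {P : F[X]} (hP : derivative P = 0) (hdeg : P.natDegree < 2 * p) :
    P = C (P.coeff 0) + C (P.coeff p) * X ^ p := by
  ext k
  rw [coeff_add, coeff_C, coeff_C_mul, coeff_X_pow]
  have hp0 := hp.out.pos
  by_cases h0 : k = 0
  · subst h0
    rw [if_pos rfl, if_neg (by omega), mul_zero, add_zero]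
  · rw [if_neg h0, zero_add]
    by_cases hkp : k = p
    · subst hkp
      rw [if_pos rfl, mul_one]
    · rw [if_neg hkp, mul_zero]
      obtain ⟨k, rfl⟩ := Nat.exists_eq_succ_of_ne_zero h0
      by_cases hk : k + 1 < 2 * p
      · have h1 := congrArg (fun Q : F[X] => Q.coeff k) hP
        simp only [coeff_derivative, coeff_zero] at h1
        have h2 : ((k + 1 : ℕ) : F) ≠ 0 := by
          rw [Ne, CharP.cast_eq_zero_iff F p]
          rintro ⟨c, hc⟩
          have hc0 : c ≠ 0 := by
            rintro rfl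
            omega
          have hc1 : c ≠ 1 := by
            rintro rfl
            apply hkp
            rw [Nat.succ_eq_add_one, hc, mul_one]
          have hc2 : 2 ≤ c := by omega
          have : p * 2 ≤ p * c := Nat.mul_le_mul_left _ hc2
          omega
        push_cast at h2
        exact (mul_eq_zero.1 h1).resolve_right h2
      · exact coeff_eq_zero_of_natDegree_lt (by omega)

/-- The coefficients of `K`. -/
def c (F : Type*) [Field F] (m i : ℕ) : F := ((m - 1).choose i : F) * (-1) ^ i / ((m + i : ℕ) : F)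

/-- The primitive of `(X (1 - X)) ^ (m - 1)`. -/
noncomputable def K (F : Type*) [Field F] (m : ℕ) : F[X] :=
  ∑ i ∈ range m, C (c F m i) * X ^ (m + i)

/-- `(1 - X) ^ p K(1 / (1 - X))`. -/
noncomputable def L (F : Type*) [Field F] (p m : ℕ) : F[X] :=
  ∑ i ∈ range m, C (c F m i) * (1 - X) ^ (p - (m + i))

/-- The primitive of `X ^ (m - 1) (1 - 4 X) ^ n`. -/
noncomputable def G (F : Type*) [Field F] (m n : ℕ) : F[X] :=
  ∑ j ∈ range (n + 1), C ((n.choose j : F) * (-4) ^ j / ((m + j : ℕ) : F)) * X ^ (m + j)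

lemma sub_pow_eq {R : Type*} [CommRing R] (x y : R) (r : ℕ) :
    (x - y) ^ r = ∑ i ∈ range (r + 1), (r.choose i : R) * (-1) ^ i * y ^ i * x ^ (r - i) := by
  rw [sub_eq_neg_add, add_pow]
  refine sum_congr rfl fun i _ => ?_
  rw [neg_pow]
  ring

lemma K_derivative {m : ℕ} (hm : 1 ≤ m) (h2 : 2 * m ≤ p) :
    derivative (K F m) = (X - X ^ 2) ^ (m - 1) := by
  have h : (X - X ^ 2 : F[X]) ^ (m - 1) = X ^ (m - 1) * (1 - X) ^ (m - 1) := by
    rw [← mul_pow]
    congr 1
    ring
  rw [h, sub_pow_eq, mul_sum, K, derivative_sum, show m - 1 + 1 = m by omega]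
  refine sum_congr rfl fun i hi => ?_
  have hi' := mem_range.1 hi
  have h3 : ((m + i : ℕ) : F) ≠ 0 := cast_ne (p := p) (by omega) (by omega)
  rw [derivative_C_mul_X_pow, c, div_mul_cancel₀ _ h3, one_pow, mul_one,
    show m + i - 1 = (m - 1) + i by omega, pow_add]
  simp only [map_mul, map_natCast, map_pow, map_neg, map_one]
  ring

lemma L_derivative {m : ℕ} (hm : 1 ≤ m) (h2 : 3 * m = p + 1) (hev : Even m) :
    derivative (L F p m) = - (X - X ^ 2) ^ (m - 1) := by
  have h : (X - X ^ 2 : F[X]) ^ (m - 1) = X ^ (m - 1) * (1 - X) ^ (m - 1) := by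
    rw [← mul_pow]
    congr 1
    ring
  have hodd : Odd (m - 1) := by
    obtain ⟨t, ht⟩ := hev
    exact ⟨t - 1, by omega⟩
  have h' : - (X ^ (m - 1) * (1 - X) ^ (m - 1) : F[X]) =
      (1 - X) ^ (m - 1) * ((1 - X) - 1) ^ (m - 1) := by
    rw [show (1 - X - 1 : F[X]) = - X by ring, hodd.neg_pow]
    ring
  rw [h, h', sub_pow_eq (1 - X : F[X]) 1, mul_sum, L, derivative_sum,
    show m - 1 + 1 = m by omega]
  refine sum_congr rfl fun i hi => ?_
  have hi' := mem_range.1 hi
  have h3 : ((m + i : ℕ) : F) ≠ 0 := cast_ne (p := p) (by omega) (by omega)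
  have h4 : ((p - (m + i) : ℕ) : F) = - ((m + i : ℕ) : F) := by
    rw [Nat.cast_sub (by omega), CharP.cast_eq_zero, zero_sub]
  have h5 : derivative ((1 - X : F[X]) ^ (p - (m + i))) =
      C ((m + i : ℕ) : F) * (1 - X) ^ (p - (m + i) - 1) := by
    rw [derivative_pow, h4]
    simp
    ring
  rw [derivative_C_mul, h5, ← mul_assoc, ← C_mul, c, div_mul_cancel₀ _ h3,
    show p - (m + i) - 1 = (m - 1) + (m - 1 - i) by omega, pow_add]
  simp only [map_mul, map_natCast, map_pow, map_neg, map_one]
  ring

lemma G_derivative {m n : ℕ} (hm : 1 ≤ m) (h : m + n < p) :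
    derivative (G F m n) = X ^ (m - 1) * (1 - 4 * X) ^ n := by
  rw [sub_pow_eq, mul_sum, G, derivative_sum]
  refine sum_congr rfl fun j hj => ?_
  have hj' := mem_range.1 hj
  have h3 : ((m + j : ℕ) : F) ≠ 0 := cast_ne (p := p) (by omega) (by omega)
  rw [derivative_C_mul_X_pow, div_mul_cancel₀ _ h3, one_pow, mul_one,
    show m + j - 1 = (m - 1) + j by omega, pow_add]
  have h4 : (-4 : F) ^ j = (-1) ^ j * 4 ^ j := by
    rw [← mul_pow]
    norm_num
  rw [h4]
  simp only [map_mul, map_natCast, map_pow, map_neg, map_one, mul_pow]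
  have h5 : (C (4 : F) : F[X]) = 4 := by
    have := C_eq_natCast (R := F) 4
    exact_mod_cast this
  rw [h5]
  ring

lemma K_natDegree {m : ℕ} : (K F m).natDegree ≤ 2 * m - 1 := by
  refine natDegree_sum_le_of_forall_le _ _ fun i hi => ?_
  have hi' := mem_range.1 hi
  refine (natDegree_C_mul_X_pow_le _ _).trans (by omega)

lemma L_natDegree {m : ℕ} (hm : 1 ≤ m) : (L F p m).natDegree ≤ p - 1 := by
  refine natDegree_sum_le_of_forall_le _ _ fun i hi => ?_
  have hi' := mem_range.1 hi
  refine (natDegree_C_mul_le _ _).trans ?_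
  refine natDegree_pow_le.trans ?_
  have : (1 - X : F[X]).natDegree ≤ 1 := by
    refine (natDegree_sub_le _ _).trans ?_
    simp
  calc (p - (m + i)) * (1 - X : F[X]).natDegree ≤ (p - (m + i)) * 1 := Nat.mul_le_mul_left _ this
    _ ≤ p - 1 := by omega

lemma G_natDegree {m n : ℕ} : (G F m n).natDegree ≤ m + n := by
  refine natDegree_sum_le_of_forall_le _ _ fun i hi => ?_
  have hi' := mem_range.1 hi
  refine (natDegree_C_mul_X_pow_le _ _).trans (by omega)

/-- `(1 - y) ^ p K(1 / (1 - y)) + K(y) = K(1)`. -/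
lemma first {m : ℕ} (hm : 1 ≤ m) (h2 : 3 * m = p + 1) (hev : Even m) :
    L F p m + K F m = C ((K F m).eval 1) := by
  have h1 : derivative (L F p m + K F m) = 0 := by
    rw [derivative_add, K_derivative (p := p) hm (by omega), L_derivative hm h2 hev, neg_add_cancel]
  have hdeg : (L F p m + K F m).natDegree < p := by
    have h3 := natDegree_add_le (L F p m) (K F m)
    have h4 := L_natDegree (F := F) (p := p) hm
    have h5 := K_natDegree (F := F) (m := m)
    have h6 : max (L F p m).natDegree (K F m).natDegree ≤ p - 1 := max_le h4 (by omega)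
    have := hp.out.pos
    omega
  rw [eq_const h1 hdeg]
  congr 1
  unfold L K
  simp only [eval_add, eval_finsetSum, eval_mul, eval_C, eval_pow, eval_X, eval_sub, eval_one,
    sub_zero, one_pow, mul_one]
  have h3 : ∑ x ∈ range m, c F m x * 0 ^ (m + x) = 0 :=
    sum_eq_zero fun i _ => by rw [zero_pow (by omega), mul_zero]
  rw [h3, add_zero]

/-- `G(y (1 - y)) = K(y) (1 - 2 y ^ p) + K(1) y ^ p`. -/
lemma second {m n : ℕ} (hm : 1 ≤ m) (h2 : 3 * m = p + 1) (hn : 2 * n + 1 = p) :
    (G F m n).comp (X - X ^ 2) = K F m * (1 - 2 * X ^ p) + C ((K F m).eval 1) * X ^ p := by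
  have hp0 := hp.out.pos
  have hpF : (p : F[X]) = 0 := CharP.cast_eq_zero F[X] p
  have htwo : ((2 : F[X])) ^ p = 2 := by
    have := map_natCast (frobenius F[X] p) 2
    rw [frobenius_def] at this
    exact_mod_cast this
  have hfrob : (1 - 2 * X : F[X]) ^ p = 1 - 2 * X ^ p := by
    rw [sub_pow_char, one_pow, mul_pow, htwo]
  set D : F[X] := (G F m n).comp (X - X ^ 2) - K F m * (1 - 2 * X ^ p) -
    C ((K F m).eval 1) * X ^ p with hD
  have hD' : derivative D = 0 := by
    have e1 : derivative ((G F m n).comp (X - X ^ 2)) = (X - X ^ 2) ^ (m - 1) * (1 - 2 * X ^ p) := by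
      rw [derivative_comp, G_derivative (p := p) hm (by omega), mul_comp, pow_comp, X_comp, pow_comp,
        ← hfrob]
      have e2 : derivative (X - X ^ 2 : F[X]) = 1 - 2 * X := by
        simp
        norm_num
      have e3 : (1 - 4 * X : F[X]).comp (X - X ^ 2) = (1 - 2 * X) ^ 2 := by
        simp only [sub_comp, one_comp, mul_comp, X_comp]
        have : (4 : F[X]).comp (X - X ^ 2) = 4 := by
          have := natCast_comp (p := (X - X ^ 2 : F[X])) (n := 4)
          exact_mod_cast this
        rw [this]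
        ring
      rw [e2, e3, ← pow_mul]
      have : (1 - 2 * X : F[X]) ^ p = (1 - 2 * X) ^ (2 * n) * (1 - 2 * X) := by
        rw [← pow_succ, hn]
      rw [this]
      ring
    have e4 : derivative (K F m * (1 - 2 * X ^ p)) = (X - X ^ 2) ^ (m - 1) * (1 - 2 * X ^ p) := by
      rw [derivative_mul, K_derivative (p := p) hm (by omega)]
      have hXp : derivative (X ^ p : F[X]) = 0 := by
        rw [derivative_X_pow, CharP.cast_eq_zero, C_0, zero_mul]
      have : derivative (1 - 2 * X ^ p : F[X]) = 0 := by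
        simp [derivative_mul, hXp]
      rw [this, mul_zero, add_zero]
    have e5 : derivative (C ((K F m).eval 1) * X ^ p) = 0 := by
      rw [derivative_C_mul_X_pow]
      simp
    rw [hD, derivative_sub, derivative_sub, e1, e4, e5]
    ring
  have hdeg : D.natDegree < 2 * p := by
    have d1 : ((G F m n).comp (X - X ^ 2)).natDegree ≤ (m + n) * 2 := by
      refine natDegree_comp_le.trans ?_
      refine Nat.mul_le_mul G_natDegree ?_
      refine (natDegree_sub_le _ _).trans ?_
      simp
    have d2 : (K F m * (1 - 2 * X ^ p)).natDegree ≤ (2 * m - 1) + p := by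
      refine natDegree_mul_le.trans (Nat.add_le_add K_natDegree ?_)
      refine (natDegree_sub_le _ _).trans ?_
      refine max_le (by simp) ?_
      refine natDegree_mul_le.trans ?_
      have : (2 : F[X]).natDegree = 0 := by
        have := natDegree_natCast (R := F) 2
        exact_mod_cast this
      rw [this, zero_add]
      exact natDegree_X_pow_le _
    have d3 : (C ((K F m).eval 1) * X ^ p).natDegree ≤ p := natDegree_C_mul_X_pow_le _ _
    have d4 := natDegree_sub_le ((G F m n).comp (X - X ^ 2) - K F m * (1 - 2 * X ^ p))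
      (C ((K F m).eval 1) * X ^ p)
    have d5 := natDegree_sub_le ((G F m n).comp (X - X ^ 2)) (K F m * (1 - 2 * X ^ p))
    rw [← hD] at d4
    omega
  have h0 : D.coeff 0 = 0 := by
    rw [coeff_zero_eq_eval_zero, hD]
    simp only [eval_sub, eval_comp, eval_mul, eval_C, eval_pow, eval_X, eval_one]
    have e1 : (G F m n).eval 0 = 0 := by
      unfold G
      simp only [eval_finsetSum, eval_mul, eval_C, eval_pow, eval_X]
      exact sum_eq_zero fun i _ => by rw [zero_pow (by omega), mul_zero]
    have e2 : (K F m).eval 0 = 0 := by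
      unfold K
      simp only [eval_finsetSum, eval_mul, eval_C, eval_pow, eval_X]
      exact sum_eq_zero fun i _ => by rw [zero_pow (by omega), mul_zero]
    rw [zero_pow hp0.ne', zero_pow two_ne_zero, sub_zero, e1, e2]
    ring
  have h1 : D.coeff p = 0 := by
    have e3 := eq_two hD' hdeg
    have e4 := congrArg (fun Q : F[X] => Q.eval 1) e3
    simp only [eval_add, eval_mul, eval_C, eval_pow, eval_X, one_pow, mul_one] at e4
    rw [h0, zero_add] at e4
    rw [← e4, hD]
    simp only [eval_sub, eval_comp, eval_mul, eval_C, eval_pow, eval_X, eval_one, one_pow, sub_self]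
    have e1 : (G F m n).eval 0 = 0 := by
      unfold G
      simp only [eval_finsetSum, eval_mul, eval_C, eval_pow, eval_X]
      exact sum_eq_zero fun i _ => by rw [zero_pow (by omega), mul_zero]
    have e2 : (2 : F[X]).eval 1 = 2 := by
      have := eval_natCast (R := F) (n := 2) (x := 1)
      exact_mod_cast this
    rw [e1, e2]
    ring
  have hD0 : D = 0 := by
    rw [eq_two hD' hdeg, h0, h1]
    simp
  rw [hD] at hD0
  linear_combination hD0

/-- The value at `1`. -/
lemma G_eval_one {m n : ℕ} (hm : 1 ≤ m) (h2 : 3 * m = p + 1) (hn : 2 * n + 1 = p) {z : F}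
    (hz : z ^ 2 - z + 1 = 0) : (G F m n).eval 1 = (K F m).eval 1 := by
  have hp0 := hp.out.pos
  have hev : Even m := by
    rcases Nat.even_or_odd m with h | ⟨t, ht⟩
    · exact h
    · omega
  obtain ⟨t, ht⟩ : ∃ t, p = 6 * t + 5 := by
    obtain ⟨s, hs⟩ := hev
    exact ⟨s - 1, by omega⟩
  have hz3 : z ^ 3 = -1 := by linear_combination (z + 1) * hz
  have hz6 : z ^ 6 = 1 := by
    calc z ^ 6 = (z ^ 3) ^ 2 := by ring
      _ = 1 := by rw [hz3]; ring
  have hzp : z ^ p = 1 - z := by
    rw [ht, pow_add, pow_mul, hz6, one_pow, one_mul]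
    calc z ^ 5 = z ^ 3 * z ^ 2 := by ring
      _ = 1 - z := by
        rw [hz3]
        linear_combination - hz
  have hz1 : (1 - z) ^ p = z := by
    rw [sub_pow_char, one_pow, hzp]
    ring
  have hL : (L F p m).eval z = z * (K F m).eval z := by
    unfold L K
    simp only [eval_finsetSum, eval_mul, eval_C, eval_pow, eval_X, eval_sub, eval_one]
    rw [mul_sum]
    refine sum_congr rfl fun i hi => ?_
    have hi' := mem_range.1 hi
    have h3 : (1 - z) ^ (p - (m + i)) = z * z ^ (m + i) := by
      have h4 : (1 - z) * z = 1 := by linear_combination - hz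
      calc (1 - z) ^ (p - (m + i)) = (1 - z) ^ (p - (m + i)) * ((1 - z) * z) ^ (m + i) := by
            rw [h4, one_pow, mul_one]
        _ = (1 - z) ^ (p - (m + i) + (m + i)) * z ^ (m + i) := by
            rw [mul_pow, pow_add]
            ring
        _ = z * z ^ (m + i) := by
            rw [Nat.sub_add_cancel (by omega), hz1]
    rw [h3]
    ring
  have e1 := congrArg (fun Q : F[X] => Q.eval z) (first (F := F) (p := p) hm h2 hev)
  simp only [eval_add, eval_C] at e1
  rw [hL] at e1
  have e2 := congrArg (fun Q : F[X] => Q.eval z) (second (F := F) hm h2 hn)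
  have e3 : (2 : F[X]).eval z = 2 := by
    have := eval_natCast (R := F) (n := 2) (x := z)
    exact_mod_cast this
  simp only [eval_add, eval_C, eval_comp, eval_sub, eval_mul, eval_pow, eval_X, eval_one, e3] at e2
  rw [hzp, show z - z ^ 2 = 1 by linear_combination - hz] at e2
  rw [e2]
  linear_combination z * e1 - (K F m).eval z * hz

/-- `∑ (-1) ^ i C(r,i) / (a + i) = r! / (a (a + 1) ⋯ (a + r))`. -/
lemma beta (r : ℕ) : ∀ b : ℕ, (∀ i ≤ r, ((b + i : ℕ) : F) ≠ 0) →
    (∏ i ∈ range (r + 1), ((b + i : ℕ) : F)) *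
      ∑ i ∈ range (r + 1), (r.choose i : F) * (-1) ^ i / ((b + i : ℕ) : F) = (r.factorial : F) := by
  induction r with
  | zero =>
    intro b hb
    have h := hb 0 le_rfl
    simp only [zero_add, range_one, prod_singleton, sum_singleton, Nat.choose_self, Nat.cast_one,
      pow_zero, mul_one, Nat.factorial_zero]
    exact mul_one_div_cancel h
  | succ r ih =>
    intro b hb
    have h1 := ih b fun i hi => hb i (by omega)
    have h2 := ih (b + 1) fun i hi => by
      have := hb (i + 1) (by omega)
      rwa [show b + 1 + i = b + (i + 1) by ring]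
    have hs : ∑ i ∈ range (r + 1 + 1), ((r + 1).choose i : F) * (-1) ^ i / ((b + i : ℕ) : F) =
        ∑ i ∈ range (r + 1), (r.choose i : F) * (-1) ^ i / ((b + i : ℕ) : F) -
        ∑ i ∈ range (r + 1), (r.choose i : F) * (-1) ^ i / ((b + 1 + i : ℕ) : F) := by
      rw [sum_range_succ', ← sub_eq_zero]
      have e1 : ∑ i ∈ range (r + 1), (r.choose i : F) * (-1) ^ i / ((b + i : ℕ) : F) =
          ∑ i ∈ range (r + 1), (r.choose (i + 1) : F) * (-1) ^ (i + 1) / ((b + (i + 1) : ℕ) : F) +
            1 / ((b + 0 : ℕ) : F) := by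
        have e2 := sum_range_succ' (fun i => (r.choose i : F) * (-1) ^ i / ((b + i : ℕ) : F)) (r + 1)
        rw [sum_range_succ, Nat.choose_succ_self, Nat.cast_zero, zero_mul, zero_div, add_zero] at e2
        rw [e2, Nat.choose_zero_right, Nat.cast_one, pow_zero, mul_one]
      rw [e1, Nat.choose_zero_right, Nat.cast_one, pow_zero, mul_one]
      have e3 : ∀ i ∈ range (r + 1), ((r + 1).choose (i + 1) : F) * (-1) ^ (i + 1) /
          ((b + (i + 1) : ℕ) : F) = (r.choose (i + 1) : F) * (-1) ^ (i + 1) / ((b + (i + 1) : ℕ) : F) -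
          (r.choose i : F) * (-1) ^ i / ((b + 1 + i : ℕ) : F) := by
        intro i _
        rw [Nat.choose_succ_succ, show b + 1 + i = b + (i + 1) by ring, ← sub_div]
        congr 1
        push_cast
        ring
      rw [sum_congr rfl e3, sum_sub_distrib]
      ring
    have hb0 : ((b : ℕ) : F) ≠ 0 := by
      have := hb 0 (by omega)
      rwa [add_zero] at this
    have hbr : ((b + (r + 1) : ℕ) : F) ≠ 0 := hb (r + 1) le_rfl
    have p1 : ∏ i ∈ range (r + 1 + 1), ((b + i : ℕ) : F) =
        (∏ i ∈ range (r + 1), ((b + i : ℕ) : F)) * ((b + (r + 1) : ℕ) : F) := prod_range_succ _ _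
    have p2 : ∏ i ∈ range (r + 1 + 1), ((b + i : ℕ) : F) =
        (∏ i ∈ range (r + 1), ((b + 1 + i : ℕ) : F)) * ((b : ℕ) : F) := by
      rw [prod_range_succ' _ (r + 1), add_zero]
      congr 1
      refine prod_congr rfl fun i _ => ?_
      rw [show b + 1 + i = b + (i + 1) by ring]
    rw [hs, mul_sub]
    nth_rw 1 [p1]
    rw [p2, Nat.factorial_succ]
    push_cast at h1 h2 ⊢
    linear_combination ((b : F) + (r + 1)) * h1 - (b : F) * h2

lemma K_eval_one {m : ℕ} (hm : 1 ≤ m) (h2 : 3 * m = p + 1) :
    ((2 * m).choose m : F) * (K F m).eval 1 = 6 := by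
  have hp0 := hp.out.two_le
  have h1 := beta (F := F) (m - 1) m fun i hi => cast_ne (p := p) (by omega) (by omega)
  have hK : (K F m).eval 1 =
      ∑ i ∈ range (m - 1 + 1), ((m - 1).choose i : F) * (-1) ^ i / ((m + i : ℕ) : F) := by
    unfold K
    simp only [eval_finsetSum, eval_mul, eval_C, eval_pow, eval_X, one_pow, mul_one]
    rw [show m - 1 + 1 = m by omega]
    rfl
  rw [← hK] at h1
  have hprod : ((m - 1).factorial : F) * ∏ i ∈ range (m - 1 + 1), ((m + i : ℕ) : F) =
      ((2 * m - 1).factorial : F) := by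
    have e1 : (m - 1).factorial * ∏ i ∈ range (m - 1 + 1), (m + i) = (2 * m - 1).factorial := by
      have e2 := Nat.factorial_mul_ascFactorial (m - 1) m
      rw [show m - 1 + m = 2 * m - 1 by omega] at e2
      rw [← e2, Nat.ascFactorial_eq_prod_range, show m - 1 + 1 = m by omega]
    rw [← e1]
    push_cast
    rfl
  have hfac : ((m - 1).factorial : F) ≠ 0 := by
    rw [Ne, CharP.cast_eq_zero_iff F p, hp.out.dvd_factorial]
    omega
  have hm0 : (m : F) ≠ 0 := cast_ne (p := p) (by omega) (by omega)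
  have h3m : (3 : F) * m = 1 := by
    have := congrArg (Nat.cast : ℕ → F) h2
    push_cast at this
    rw [this, CharP.cast_eq_zero, zero_add]
  have hch : ((2 * m).choose m : F) * ((m - 1).factorial : F) * ((m - 1).factorial : F) * m * m =
      2 * m * ((2 * m - 1).factorial : F) := by
    have e1 := Nat.choose_mul_factorial_mul_factorial (show m ≤ 2 * m by omega)
    rw [show 2 * m - m = m by omega] at e1
    have e2 : m.factorial = m * (m - 1).factorial := (Nat.mul_factorial_pred (by omega)).symm
    have e3 : (2 * m).factorial = 2 * m * (2 * m - 1).factorial :=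
      (Nat.mul_factorial_pred (by omega)).symm
    rw [e2, e3] at e1
    have e4 := congrArg (Nat.cast : ℕ → F) e1
    push_cast at e4
    linear_combination e4
  have h4 : (((2 * m).choose m : F) * (K F m).eval 1 - 6) *
      (((m - 1).factorial : F) * ((m - 1).factorial : F) * m * m) = 0 := by
    linear_combination (K F m).eval 1 * hch - 2 * m * (K F m).eval 1 * hprod +
      2 * m * ((m - 1).factorial : F) * h1 - 2 * m * ((m - 1).factorial : F) ^ 2 * h3m
  have h5 : ((m - 1).factorial : F) * ((m - 1).factorial : F) * m * m ≠ 0 :=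
    mul_ne_zero (mul_ne_zero (mul_ne_zero hfac hfac) hm0) hm0
  exact sub_eq_zero.1 ((mul_eq_zero.1 h4).resolve_right h5)

/-- `C(2j,j) = (-4) ^ j C((p-1)/2, j)` modulo `p`. -/
lemma central {n : ℕ} (hn : 2 * n + 1 = p) (j : ℕ) (hj : j ≤ n) :
    ((2 * j).choose j : F) = (-4) ^ j * (n.choose j : F) := by
  induction j with
  | zero => simp
  | succ j ih =>
    have ih' := ih (by omega)
    have h1 : (((j + 1 : ℕ)) : F) ≠ 0 := cast_ne (p := p) (by omega) (by omega)
    have h2 : ((j + 1 : ℕ) : F) * ((2 * (j + 1)).choose (j + 1) : F) =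
        2 * (2 * j + 1) * ((2 * j).choose j : F) := by
      have := Nat.succ_mul_centralBinom_succ j
      rw [Nat.centralBinom_eq_two_mul_choose, Nat.centralBinom_eq_two_mul_choose] at this
      have e := congrArg (Nat.cast : ℕ → F) this
      push_cast at e ⊢
      linear_combination e
    have h3 : (n.choose (j + 1) : F) * ((j + 1 : ℕ) : F) = (n.choose j : F) * ((n : F) - j) := by
      have := Nat.choose_succ_right_eq n j
      have e := congrArg (Nat.cast : ℕ → F) this
      rw [Nat.cast_mul, Nat.cast_mul, Nat.cast_sub (by omega)] at e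
      exact e
    have h4 : (2 : F) * n = -1 := by
      have := congrArg (Nat.cast : ℕ → F) hn
      push_cast at this
      rw [CharP.cast_eq_zero F p] at this
      linear_combination this
    apply mul_left_cancel₀ h1
    rw [h2, ih', pow_succ]
    linear_combination 4 * (-4) ^ j * h3 + 2 * (-4) ^ j * (n.choose j : F) * h4

/-- The sum in characteristic `p`. -/
lemma field_sum {m n : ℕ} (hm : 1 ≤ m) (h2 : 3 * m = p + 1) (hn : 2 * n + 1 = p) {z : F}
    (hz : z ^ 2 - z + 1 = 0) (s : ℕ → F)
    (hs : ∀ j ≤ n, ((3 * j + 1 : ℕ) : F) * s j = ((2 * j).choose j : F)) :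
    ((2 * m).choose m : F) * ∑ j ∈ range (n + 1), s j = 2 := by
  have h3m : (3 : F) * m = 1 := by
    have := congrArg (Nat.cast : ℕ → F) h2
    push_cast at this
    rw [this, CharP.cast_eq_zero, zero_add]
  have h3 : (3 : F) ≠ 0 := by
    intro h
    rw [h, zero_mul] at h3m
    exact zero_ne_one h3m
  have h1 : 3 * ∑ j ∈ range (n + 1), s j = (G F m n).eval 1 := by
    unfold G
    simp only [eval_finsetSum, eval_mul, eval_C, eval_pow, eval_X, one_pow, mul_one]
    rw [mul_sum]
    refine sum_congr rfl fun j hj => ?_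
    have hj' : j ≤ n := Nat.lt_succ_iff.1 (mem_range.1 hj)
    have h4 : ((m + j : ℕ) : F) ≠ 0 := cast_ne (p := p) (by omega) (by omega)
    rw [eq_div_iff h4]
    have h5 := hs j hj'
    rw [central hn j hj'] at h5
    push_cast at h5 ⊢
    linear_combination h5 + s j * h3m
  have h4 := K_eval_one (F := F) hm h2
  rw [← G_eval_one hm h2 hn hz, ← h1] at h4
  apply mul_left_cancel₀ h3
  linear_combination h4

end Field

/-! ### Binomial coefficients -/

/-- The terms of the sum over `j`. -/
def t (p j : ℕ) : ℕ := (p + j).choose (3 * j + 1) * (3 * j).choose j * (2 * j).choose j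

lemma trinomial (n j : ℕ) : n.choose j * (n - j).choose j * (n + j).choose j =
    (n + j).choose (3 * j) * (3 * j).choose j * (2 * j).choose j := by
  by_cases h : 2 * j ≤ n
  · have h1 := Nat.choose_mul (n := n + j) (show j ≤ 3 * j by omega)
    have h2 := Nat.choose_mul (n := n) (show j ≤ 2 * j by omega)
    rw [show n + j - j = n by omega, show 3 * j - j = 2 * j by omega] at h1
    rw [show 2 * j - j = j by omega] at h2
    rw [h1, mul_assoc ((n + j).choose j), h2]
    ring
  · rw [Nat.choose_eq_zero_of_lt (show n + j < 3 * j by omega), zero_mul, zero_mul]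
    rw [Nat.choose_eq_zero_of_lt (show n - j < j by omega), mul_zero, zero_mul]

lemma hockey (j N : ℕ) : ∑ n ∈ range N, (n + j).choose (3 * j) = (N + j).choose (3 * j + 1) := by
  induction N with
  | zero =>
    rw [range_zero, sum_empty, zero_add, Nat.choose_eq_zero_of_lt (by omega)]
  | succ N ih =>
    rw [sum_range_succ, ih, show N + 1 + j = (N + j) + 1 by ring, Nat.choose_succ_succ, add_comm]

lemma sum_a (N : ℕ) : ∑ n ∈ range N, a n = ∑ j ∈ range N, t N j := by
  have h1 : ∀ n ∈ range N, a n = ∑ j ∈ range N,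
      (n + j).choose (3 * j) * (3 * j).choose j * (2 * j).choose j := by
    intro n hn
    have hn' := mem_range.1 hn
    unfold a
    rw [sum_subset (s₂ := range N) (range_subset_range.2 (by omega))]
    · exact sum_congr rfl fun j _ => trinomial n j
    · intro j _ hj
      rw [mem_range, not_lt] at hj
      rw [Nat.choose_eq_zero_of_lt (show n < j by omega), zero_mul, zero_mul]
  rw [sum_congr rfl h1, sum_comm]
  refine sum_congr rfl fun j _ => ?_
  rw [← sum_mul, ← sum_mul, hockey]
  rfl

lemma t_zero {p j : ℕ} (h : p < 2 * j + 1) : t p j = 0 := by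
  unfold t
  rw [Nat.choose_eq_zero_of_lt (by omega), zero_mul, zero_mul]

lemma t_eq {p j : ℕ} (hp : 1 ≤ p) (h : 2 * j + 1 ≤ p) : (3 * j + 1) * t p j =
    p * ((p + j).choose j * (p - 1).choose (2 * j) * (2 * j).choose j) := by
  have h1 := Nat.choose_mul (n := p + j) (show j ≤ 3 * j + 1 by omega)
  rw [show p + j - j = p by omega, show 3 * j + 1 - j = 2 * j + 1 by omega] at h1
  have h2 : (2 * j + 1) * (3 * j + 1).choose j = (3 * j + 1) * (3 * j).choose j := by
    have := Nat.add_one_mul_choose_eq (3 * j) (2 * j)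
    rw [← Nat.choose_symm (show 2 * j ≤ 3 * j by omega),
      ← Nat.choose_symm (show 2 * j + 1 ≤ 3 * j + 1 by omega),
      show 3 * j - 2 * j = j by omega, show 3 * j + 1 - (2 * j + 1) = j by omega] at this
    rw [this]
    ring
  have h3 : (2 * j + 1) * p.choose (2 * j + 1) = p * (p - 1).choose (2 * j) := by
    have := Nat.add_one_mul_choose_eq (p - 1) (2 * j)
    rw [show p - 1 + 1 = p by omega] at this
    rw [this]
    ring
  unfold t
  calc (3 * j + 1) * ((p + j).choose (3 * j + 1) * (3 * j).choose j * (2 * j).choose j)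
      = (p + j).choose (3 * j + 1) * ((3 * j + 1) * (3 * j).choose j) * (2 * j).choose j := by ring
    _ = (2 * j + 1) * ((p + j).choose (3 * j + 1) * (3 * j + 1).choose j) * (2 * j).choose j := by
        rw [← h2]
        ring
    _ = (p + j).choose j * ((2 * j + 1) * p.choose (2 * j + 1)) * (2 * j).choose j := by
        rw [h1]
        ring
    _ = _ := by
        rw [h3]
        ring

lemma choose_pred {p : ℕ} [hp : Fact p.Prime] (k : ℕ) (hk : k < p) :
    ((p - 1).choose k : ZMod p) = (-1) ^ k := by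
  induction k with
  | zero => simp
  | succ k ih =>
    have h1 := ih (by omega)
    have h2 : (p.choose (k + 1) : ZMod p) = 0 := by
      rw [ZMod.natCast_eq_zero_iff]
      exact hp.out.dvd_choose_self (Nat.succ_ne_zero k) hk
    have h3 : p.choose (k + 1) = (p - 1).choose k + (p - 1).choose (k + 1) := by
      conv_lhs => rw [show p = (p - 1) + 1 by omega]
      rw [Nat.choose_succ_succ]
    rw [h3] at h2
    push_cast at h2
    rw [pow_succ]
    linear_combination h2 - h1

lemma choose_add {p : ℕ} [hp : Fact p.Prime] (j : ℕ) (hj : j < p) :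
    ((p + j).choose j : ZMod p) = 1 := by
  have h := Choose.choose_modEq_choose_mod_mul_choose_div_nat (n := p + j) (k := j) (p := p)
  rw [Nat.add_mod_left, Nat.mod_eq_of_lt hj, Nat.div_eq_of_lt hj,
    Nat.add_div_left _ hp.out.pos, Nat.div_eq_of_lt hj] at h
  have := (ZMod.natCast_eq_natCast_iff _ _ p).2 h
  rw [this]
  simp

/-- For every prime `p ≡ 2 (mod 3)` the sum `a(0) + ⋯ + a(p-1)` is congruent to
`2 p / C(2m,m)` modulo `p²`, where `m = (p+1)/3`. -/
theorem result (p : ℕ) (hp : p.Prime) (hp3 : p % 3 = 2) (m : ℕ) (hm : m = (p + 1) / 3) :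
    ((p : ℤ) ^ 2) ∣ ((∑ k ∈ range p, (a k : ℚ)) - 2 * p / ((2 * m).choose m : ℚ)).num := by
  have : Fact p.Prime := ⟨hp⟩
  have h2m : 3 * m = p + 1 := by omega
  rcases hp.eq_two_or_odd' with rfl | hodd
  · have hm1 : m = 1 := by omega
    subst hm1
    have : (∑ k ∈ range 2, (a k : ℚ)) - 2 * (2 : ℕ) / ((2 * 1).choose 1 : ℚ) = 0 := by
      have h0 : a 0 = 1 := by decide
      have h1 : a 1 = 1 := by decide
      rw [sum_range_succ, sum_range_one, h0, h1]
      norm_num
    rw [this]
    simp
  obtain ⟨n, hn⟩ : ∃ n, 2 * n + 1 = p := by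
    obtain ⟨n, hn⟩ := hodd
    exact ⟨n, hn.symm⟩
  have hp1 := hp.two_le
  have hm1 : 1 ≤ m := by omega
  -- divisibility of the terms
  have hdvd : ∀ j, p ∣ t p j := by
    intro j
    by_cases hj : 2 * j + 1 ≤ p
    · have h1 := t_eq hp.one_le hj
      have h2 : p ∣ (3 * j + 1) * t p j := ⟨_, h1⟩
      rcases hp.dvd_mul.1 h2 with h | h
      · exfalso
        obtain ⟨c, hc⟩ := h
        have hc2 : c < 2 := by
          by_contra hcon
          have : p * 2 ≤ p * c := Nat.mul_le_mul_left _ (by omega)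
          omega
        interval_cases c <;> omega
      · exact h
    · rw [t_zero (by omega)]
      exact dvd_zero _
  choose s hs using hdvd
  have hsum : ∑ k ∈ range p, a k = p * ∑ j ∈ range (n + 1), s j := by
    rw [sum_a, mul_sum, ← sum_subset (s₁ := range (n + 1)) (range_subset_range.2 (by omega))]
    · exact sum_congr rfl fun j _ => hs j
    · intro j _ hj
      rw [mem_range, not_lt] at hj
      exact t_zero (by omega)
  have hsj : ∀ j ≤ n, ((3 * j + 1 : ℕ) : ZMod p) * s j = ((2 * j).choose j : ZMod p) := by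
    intro j hj
    have h1 := t_eq hp.one_le (show 2 * j + 1 ≤ p by omega)
    rw [hs j] at h1
    have h2 : (3 * j + 1) * s j = (p + j).choose j * (p - 1).choose (2 * j) * (2 * j).choose j := by
      apply Nat.eq_of_mul_eq_mul_left hp.pos
      rw [← h1]
      ring
    have h3 := congrArg (Nat.cast : ℕ → ZMod p) h2
    rw [Nat.cast_mul, Nat.cast_mul, Nat.cast_mul, choose_pred (2 * j) (by omega),
      choose_add j (by omega), pow_mul] at h3
    rw [h3]
    simp
  -- the sum in an extension field
  let F := AlgebraicClosure (ZMod p)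
  obtain ⟨z, hz⟩ : ∃ z : F, z ^ 2 - z + 1 = 0 := by
    have hdeg : (X ^ 2 - X + 1 : F[X]).degree = 2 := by
      compute_degree!
    obtain ⟨z, hz⟩ := IsAlgClosed.exists_root (X ^ 2 - X + 1 : F[X]) (by rw [hdeg]; decide)
    refine ⟨z, ?_⟩
    simpa [IsRoot] using hz
  have hF := field_sum (F := F) (p := p) hm1 h2m hn hz (fun j => (s j : F)) (by
    intro j hj
    have h := congrArg (algebraMap (ZMod p) F) (hsj j hj)
    rw [map_mul, map_natCast, map_natCast, map_natCast] at h
    exact h)
  have hZ : ((2 * m).choose m : ZMod p) * ∑ j ∈ range (n + 1), (s j : ZMod p) = 2 := by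
    apply (algebraMap (ZMod p) F).injective
    rw [map_mul, map_sum, map_natCast, map_ofNat]
    simp_rw [map_natCast]
    exact hF
  obtain ⟨w, hw⟩ : (p : ℤ) ∣ ((2 * m).choose m : ℤ) * ∑ j ∈ range (n + 1), (s j : ℤ) - 2 := by
    rw [← ZMod.intCast_zmod_eq_zero_iff_dvd]
    push_cast
    rw [hZ, sub_self]
  set Cm : ℕ := (2 * m).choose m with hCm
  have hC0 : Cm ≠ 0 := (Nat.choose_pos (by omega)).ne'
  have hcop : IsCoprime ((p : ℤ) ^ 2) (Cm : ℤ) := by
    apply IsCoprime.pow_left
    rw [Nat.isCoprime_iff_coprime]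
    rw [Nat.Prime.coprime_iff_not_dvd hp]
    intro h
    have h1 : (Cm : ZMod p) = 0 := (ZMod.natCast_eq_zero_iff _ _).2 h
    rw [h1, zero_mul] at hZ
    have h2 : ((2 : ℕ) : ZMod p) = 0 := by
      push_cast
      exact hZ.symm
    rw [ZMod.natCast_eq_zero_iff] at h2
    have := Nat.le_of_dvd (by norm_num) h2
    omega
  set q : ℚ := (∑ k ∈ range p, (a k : ℚ)) - 2 * p / (Cm : ℚ) with hq
  have hC0' : (Cm : ℚ) ≠ 0 := by exact_mod_cast hC0
  have hqC : q * Cm = (p : ℚ) ^ 2 * w := by
    have h1 : (∑ k ∈ range p, (a k : ℚ)) = p * ∑ j ∈ range (n + 1), (s j : ℚ) := by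
      exact_mod_cast hsum
    have h2 : (Cm : ℚ) * ∑ j ∈ range (n + 1), (s j : ℚ) - 2 = p * w := by
      exact_mod_cast hw
    rw [hq, sub_mul, div_mul_cancel₀ _ hC0', h1]
    linear_combination (p : ℚ) * h2
  have hden : (q.den : ℚ) ≠ 0 := by exact_mod_cast q.den_nz
  have hnum : q.num * (Cm : ℤ) = (p : ℤ) ^ 2 * (w * q.den) := by
    have h1 : (q.num : ℚ) = q * q.den := (Rat.mul_den_eq_num q).symm
    have h2 : (q.num : ℚ) * (Cm : ℚ) = (p : ℚ) ^ 2 * (w * q.den) := by
      rw [h1]
      linear_combination (q.den : ℚ) * hqC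
    exact_mod_cast h2
  exact hcop.dvd_of_dvd_mul_right ⟨_, hnum⟩

end Pool.Agent.Results.MP_ec79a8_nt.SunTwoModThree
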